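import Pool.Agent.Helper73.SM.Goals

/-!
# Project SM (MP_c307ca_nt), packet CNT
-/

set_option autoImplicit false

namespace Pool.Agent.Helper32.SM

open Finset hiding box
open Pool.Agent.Helper73.SM

/-- a nonzero integer vector is a positive multiple of a primitive vector -/
theorem exists_prim (c : ℤ × ℤ) (hc : ¬ (c.1 = 0 ∧ c.2 = 0)) :
    ∃ (k : ℕ) (z : ℤ × ℤ), 1 ≤ k ∧ IsCoprime z.1 z.2 ∧ c = ((k : ℤ) * z.1, (k : ℤ) * z.2) := by
  have hpos : 0 < Int.gcd c.1 c.2 := by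
    rw [Int.gcd_pos_iff]
    by_contra h
    push Not at h
    exact hc h
  refine ⟨Int.gcd c.1 c.2, (c.1 / (Int.gcd c.1 c.2 : ℤ), c.2 / (Int.gcd c.1 c.2 : ℤ)), hpos, ?_, ?_⟩
  · rw [Int.isCoprime_iff_gcd_eq_one]
    exact Int.gcd_ediv_gcd_ediv_gcd hpos
  · refine Prod.ext ?_ ?_
    · dsimp only
      rw [Int.mul_ediv_cancel' (Int.gcd_dvd_left ..)]
    · dsimp only
      rw [Int.mul_ediv_cancel' (Int.gcd_dvd_right ..)]

theorem goalCNT (hLAT : StmtLAT) (hPRM : StmtPRM) (hSUM : StmtSUM) : StmtCNT := by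
  classical
  intro ξ M m lam K H hH hM hm hlam hK hKB
  have hH0 : (0 : ℝ) < H := by exact_mod_cast (by omega : 0 < H)
  set Y : ℝ := 2 * H * M with hY
  have hY0 : 0 ≤ Y := by positivity
  set X : ℕ → ℝ := fun n => 8 * m * n / M with hX
  set Δ : ℝ := 2 * lam * M / m with hΔ
  have hΔ0 : 0 < Δ := by rw [hΔ]; positivity
  set U : ℕ → ℕ → ℝ × ℝ := fun n k => ((k : ℝ) / X n, ξ * k / Δ) with hU
  set V : ℕ → ℝ × ℝ := fun k => (0, (k : ℝ) / Δ) with hV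
  -- the primitive vectors
  have hdr : ∀ n k : ℕ, 1 ≤ n → 1 ≤ k → dr (U n k) (V k) = (k : ℝ) ^ 2 / (16 * lam * n) := by
    intro n k hn hk
    have hn0 : (n : ℝ) ≠ 0 := by exact_mod_cast (by omega : n ≠ 0)
    rw [hU, hV, hX, hΔ]
    unfold dr
    dsimp only
    field_simp
    ring
  have hdrpos : ∀ n k : ℕ, 1 ≤ n → 1 ≤ k → 0 < dr (U n k) (V k) := by
    intro n k hn hk
    have hn0 : (0 : ℝ) < n := by exact_mod_cast (by omega : 0 < n)
    have hk0 : (0 : ℝ) < k := by exact_mod_cast (by omega : 0 < k)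
    rw [hdr n k hn hk]
    positivity
  set P : ℕ → ℕ → Set (ℤ × ℤ) := fun n k =>
    {w : ℤ × ℤ | IsCoprime w.1 w.2 ∧ nm (cb w.1 w.2 (U n k) (V k)) ≤ 1} with hP
  have hPfin : ∀ n k : ℕ, 1 ≤ n → 1 ≤ k → (P n k).Finite := fun n k hn hk =>
    (hPRM (U n k) (V k) (hdrpos n k hn hk).ne').1
  have hPcard : ∀ n k : ℕ, 1 ≤ n → 1 ≤ k →
      ((P n k).ncard : ℝ) ≤ 2 + 1152 * lam * n / (k : ℝ) ^ 2 := by
    intro n k hn hk
    have hn0 : (n : ℝ) ≠ 0 := by exact_mod_cast (by omega : n ≠ 0)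
    have hk0 : (k : ℝ) ≠ 0 := by exact_mod_cast (by omega : k ≠ 0)
    have h1 := (hPRM (U n k) (V k) (hdrpos n k hn hk).ne').2
    rw [abs_of_pos (hdrpos n k hn hk), hdr n k hn hk] at h1
    refine h1.trans (le_of_eq ?_)
    field_simp
    ring
  -- a finset version
  obtain ⟨PF, hPF⟩ : ∃ PF : ℕ → ℕ → Finset (ℤ × ℤ), ∀ n k : ℕ, 1 ≤ n → 1 ≤ k →
      (∀ w, w ∈ PF n k ↔ w ∈ P n k) ∧ ((PF n k).card : ℝ) ≤ 2 + 1152 * lam * n / (k : ℝ) ^ 2 := by
    refine ⟨fun n k => if h : 1 ≤ n ∧ 1 ≤ k then (hPfin n k h.1 h.2).toFinset else ∅, ?_⟩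
    intro n k hn hk
    have hh : 1 ≤ n ∧ 1 ≤ k := ⟨hn, hk⟩
    dsimp only
    rw [dif_pos hh]
    refine ⟨fun w => Set.Finite.mem_toFinset _, ?_⟩
    rw [← Set.ncard_eq_toFinset_card _ (hPfin n k hn hk)]
    exact hPcard n k hn hk
  set Lg : ℕ → ℕ → (ℤ × ℤ) → Finset Mat := fun n k z =>
    (box H).filter (fun g => |lf ξ g.1| ≤ M ∧ |lf ξ g.2| ≤ M ∧ |dt g.1 g.2| = (n : ℤ) ∧
      ∃ u : ℤ × ℤ, IsCoprime u.1 u.2 ∧ cmb u g = ((k : ℤ) * z.1, (k : ℤ) * z.2)) with hLg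
  have hLcard : ∀ (n k : ℕ) (z : ℤ × ℤ), IsCoprime z.1 z.2 → 1 ≤ k → 1 ≤ n →
      ((Lg n k z).card : ℝ) ≤ if k ∣ n then (k : ℝ) * (384 * H * M / n) else 0 :=
    fun n k z hz hk hn => hLAT ξ M H hH hM z hz k n hk hn
  set S := (box H).filter (Cls ξ M m lam) with hS
  set D : ℕ → Finset ℕ := fun n => n.divisors.filter (fun k : ℕ => (k : ℝ) ≤ K) with hD
  have hsub : S ⊆ (Icc 1 ⌊Y⌋₊).biUnion (fun n => (D n).biUnion (fun k =>
      (PF n k).biUnion (fun z => Lg n k z))) := by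
    intro g hg
    obtain ⟨hbox, hg1, hg2, hd0, u, hu, hu1, hu2⟩ := Finset.mem_filter.1 hg
    have hgb : |(g.1.1 : ℝ)| ≤ (H : ℝ) ∧ |(g.2.1 : ℝ)| ≤ (H : ℝ) := by
      have hb := hbox
      unfold box at hb
      simp only [Finset.mem_product, Finset.mem_Icc] at hb
      exact ⟨by exact_mod_cast abs_le.2 hb.1.1, by exact_mod_cast abs_le.2 hb.2.1⟩
    -- n
    obtain ⟨n, hn⟩ : ∃ n : ℕ, |dt g.1 g.2| = (n : ℤ) := ⟨(dt g.1 g.2).natAbs, by simp⟩
    have hn1 : 1 ≤ n := by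
      have : 0 < |dt g.1 g.2| := abs_pos.2 hd0
      rw [hn] at this
      exact_mod_cast this
    have hnR : |((dt g.1 g.2 : ℤ) : ℝ)| = (n : ℝ) := by
      rw [← Int.cast_abs, hn]; simp
    have hnY : (n : ℝ) ≤ Y := by
      rw [← hnR]
      have e1 : ((dt g.1 g.2 : ℤ) : ℝ) = (g.1.1 : ℝ) * lf ξ g.2 - (g.2.1 : ℝ) * lf ξ g.1 := by
        unfold dt lf
        push_cast
        ring
      rw [e1]
      refine (abs_sub _ _).trans ?_
      rw [abs_mul, abs_mul, hY]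
      have a1 := mul_le_mul hgb.1 hg2 (abs_nonneg _) hH0.le
      have a2 := mul_le_mul hgb.2 hg1 (abs_nonneg _) hH0.le
      linarith
    -- k, z
    have hc0 : ¬ ((cmb u g).1 = 0 ∧ (cmb u g).2 = 0) := by
      rintro ⟨h1, h2⟩
      have h1' : u.1 * g.1.1 + u.2 * g.2.1 = 0 := h1
      have h2' : u.1 * g.1.2 + u.2 * g.2.2 = 0 := h2
      have e1 : u.1 * dt g.1 g.2 = 0 := by
        unfold dt; linear_combination g.2.2 * h1' - g.2.1 * h2'
      have e2 : u.2 * dt g.1 g.2 = 0 := by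
        unfold dt; linear_combination g.1.1 * h2' - g.1.2 * h1'
      have u1 : u.1 = 0 := (mul_eq_zero.1 e1).resolve_right hd0
      have u2 : u.2 = 0 := (mul_eq_zero.1 e2).resolve_right hd0
      rw [u1, u2] at hu
      exact not_isCoprime_zero_zero hu
    obtain ⟨k, z, hk1, hz, hkz⟩ := exists_prim (cmb u g) hc0
    have hk0 : (0 : ℝ) < k := by exact_mod_cast (by omega : 0 < k)
    have hn0 : (0 : ℝ) < n := by exact_mod_cast (by omega : 0 < n)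
    have b1 : (k : ℝ) * |(z.1 : ℝ)| ≤ 8 * m * n / M := by
      rw [hkz, hnR] at hu1
      dsimp only at hu1
      push_cast at hu1
      rwa [abs_mul, abs_of_pos hk0] at hu1
    have b2 : (k : ℝ) * |lf ξ z| ≤ 2 * lam * M / m := by
      rw [hkz] at hu2
      have e1 : lf ξ ((k : ℤ) * z.1, (k : ℤ) * z.2) = (k : ℝ) * lf ξ z := by
        unfold lf
        dsimp only
        push_cast
        ring
      rwa [e1, abs_mul, abs_of_pos hk0] at hu2
    have hkK : (k : ℝ) ≤ K := hKB n k z hn1 hnY hz hk1 b1 b2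
    have hmem : g ∈ Lg n k z :=
      Finset.mem_filter.2 ⟨hbox, hg1, hg2, hn, u, hu, hkz⟩
    have hkn : k ∣ n := by
      by_contra hcon
      have h1 := hLcard n k z hz hk1 hn1
      rw [if_neg hcon] at h1
      have h2 : 0 < (Lg n k z).card := Finset.card_pos.2 ⟨g, hmem⟩
      have h3 : (0 : ℝ) < (Lg n k z).card := by exact_mod_cast h2
      linarith
    refine Finset.mem_biUnion.2 ⟨n, Finset.mem_Icc.2 ⟨hn1, Nat.le_floor hnY⟩, ?_⟩
    refine Finset.mem_biUnion.2 ⟨k, Finset.mem_filter.2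
      ⟨Nat.mem_divisors.2 ⟨hkn, by omega⟩, hkK⟩, ?_⟩
    refine Finset.mem_biUnion.2 ⟨z, ((hPF n k hn1 hk1).1 z).2 ⟨hz, ?_⟩, hmem⟩
    have hX0 : 0 < X n := by rw [hX]; positivity
    have e1 : cb z.1 z.2 (U n k) (V k) = ((k : ℝ) * z.1 / X n, (k : ℝ) * lf ξ z / Δ) := by
      rw [hU, hV]
      unfold cb lf
      dsimp only
      refine Prod.ext ?_ ?_
      · dsimp only
        ring
      · dsimp only
        ring
    rw [e1]
    unfold nm
    dsimp only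
    refine max_le ?_ ?_
    · rw [abs_div ((k : ℝ) * z.1) (X n), abs_of_pos hX0, div_le_one hX0, abs_mul, abs_of_pos hk0]
      exact b1
    · rw [abs_div ((k : ℝ) * lf ξ z) Δ, abs_of_pos hΔ0, div_le_one hΔ0, abs_mul, abs_of_pos hk0]
      exact b2
  have hcard1 : (S.card : ℝ) ≤ ∑ n ∈ Icc 1 ⌊Y⌋₊, ∑ k ∈ D n, ∑ z ∈ PF n k, ((Lg n k z).card : ℝ) := by
    have e1 : S.card ≤ ∑ n ∈ Icc 1 ⌊Y⌋₊, ∑ k ∈ D n, ∑ z ∈ PF n k, (Lg n k z).card := by
      refine (Finset.card_le_card hsub).trans (Finset.card_biUnion_le.trans ?_)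
      refine Finset.sum_le_sum fun n _ => Finset.card_biUnion_le.trans ?_
      exact Finset.sum_le_sum fun k _ => Finset.card_biUnion_le
    have e2 : (S.card : ℝ) ≤
        ((∑ n ∈ Icc 1 ⌊Y⌋₊, ∑ k ∈ D n, ∑ z ∈ PF n k, (Lg n k z).card : ℕ) : ℝ) := by
      exact_mod_cast e1
    push_cast at e2
    exact e2
  have hcard2 : ∑ n ∈ Icc 1 ⌊Y⌋₊, ∑ k ∈ D n, ∑ z ∈ PF n k, ((Lg n k z).card : ℝ) ≤
      ∑ n ∈ Icc 1 ⌊Y⌋₊, ∑ k ∈ D n, 384 * H * M * (2 * (k : ℝ) / n + 1152 * lam / k) := by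
    refine Finset.sum_le_sum fun n hn => Finset.sum_le_sum fun k hk => ?_
    have hn1 : 1 ≤ n := (Finset.mem_Icc.1 hn).1
    have hkn : k ∣ n := (Nat.mem_divisors.1 (Finset.mem_filter.1 hk).1).1
    have hk1 : 1 ≤ k := Nat.pos_of_dvd_of_pos hkn hn1
    have hk0 : (0 : ℝ) < k := by exact_mod_cast (by omega : 0 < k)
    have hn0 : (0 : ℝ) < n := by exact_mod_cast (by omega : 0 < n)
    have e1 : ∑ z ∈ PF n k, ((Lg n k z).card : ℝ) ≤ ∑ z ∈ PF n k, (k : ℝ) * (384 * H * M / n) := by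
      refine Finset.sum_le_sum fun z hz => ?_
      have h1 := hLcard n k z (((hPF n k hn1 hk1).1 z).1 hz).1 hk1 hn1
      rwa [if_pos hkn] at h1
    rw [Finset.sum_const, nsmul_eq_mul] at e1
    have h2 := (hPF n k hn1 hk1).2
    have h3 : 0 ≤ (k : ℝ) * (384 * H * M / n) := by positivity
    refine e1.trans ((mul_le_mul_of_nonneg_right h2 h3).trans (le_of_eq ?_))
    field_simp
  have hcard3 : ∑ n ∈ Icc 1 ⌊Y⌋₊, ∑ k ∈ D n, 384 * H * M * (2 * (k : ℝ) / n + 1152 * lam / k) =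
      384 * H * M * ∑ n ∈ Icc 1 ⌊Y⌋₊, ∑ k ∈ D n, (2 * (k : ℝ) / n + 1152 * lam / k) := by
    rw [Finset.mul_sum]
    refine Finset.sum_congr rfl fun n _ => ?_
    rw [Finset.mul_sum]
  have hsum := hSUM Y K lam hY0 hK hlam.le
  have h384 : (0 : ℝ) ≤ 384 * H * M := by positivity
  have hfin : (S.card : ℝ) ≤ 384 * H * M * (2 * K * (1 + Real.log (1 + Y)) + 2304 * lam * Y) := by
    refine hcard1.trans (hcard2.trans ?_)
    rw [hcard3]
    exact mul_le_mul_of_nonneg_left hsum h384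
  refine hfin.trans ?_
  have hlog : 0 ≤ Real.log (1 + Y) := Real.log_nonneg (by linarith)
  have t1 : 0 ≤ (H : ℝ) * M * K * (1 + Real.log (1 + Y)) := by
    have : 0 ≤ K := by linarith
    positivity
  have t2 : 0 ≤ lam * ((H : ℝ) * M) ^ 2 := by positivity
  have e1 : 384 * H * M * (2 * K * (1 + Real.log (1 + Y)) + 2304 * lam * Y) =
      768 * (H * M * K * (1 + Real.log (1 + Y))) + 1769472 * (lam * (H * M) ^ 2) := by
    have : 384 * H * M * (2304 * lam * Y) = 1769472 * (lam * (H * M) ^ 2) := by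
      rw [hY]; ring
    rw [mul_add, this]
    ring
  rw [e1]
  linarith

end Pool.Agent.Helper32.SM
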