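import Pool.Agent.Helper73.SM.GoalsK

/-!
# Project KR (MP_c307ca_nt), packet KCP: primes dividing both approximants
-/

set_option autoImplicit false

namespace Pool.Agent.Helper32.SM

open Pool.Agent.Helper73.SM
open Finset hiding box

/-- the residues `l_s` -/
theorem exists_ls {k m p l : ℕ} {s : ℤ} (hs : s = m ∨ s = -(m : ℤ)) (h : Lr k m p l) :
    ∃ t : ℕ, l ≤ t ∧ t + l ≤ p ∧ (p : ℤ) ∣ (k : ℤ) * t + s := by
  obtain ⟨h1, h2, h3⟩ := h
  have key : ∀ σ : ℤ, (p : ℤ) ∣ (k : ℤ) * l - σ → (p : ℤ) ∣ (k : ℤ) * ((p - l : ℕ) : ℤ) + σ := by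
    intro σ hσ
    have e : (k : ℤ) * ((p - l : ℕ) : ℤ) + σ = p * k - (k * l - σ) := by
      rw [Nat.cast_sub (by omega)]
      ring
    rw [e]
    exact dvd_sub (dvd_mul_right _ _) hσ
  rcases hs with rfl | rfl
  · rcases h3 with h3 | h3
    · exact ⟨l, le_rfl, by omega, h3⟩
    · exact ⟨p - l, by omega, by omega, key _ h3⟩
  · rcases h3 with h3 | h3
    · refine ⟨p - l, by omega, by omega, key _ ?_⟩
      rwa [sub_neg_eq_add]
    · exact ⟨l, le_rfl, by omega, by rwa [← sub_eq_add_neg]⟩

theorem choose_dvd' {n p r : ℕ} (hp : p.Prime) {c : ℕ} (hr : c % p = r) (h : p ≤ n % p + r) :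
    p ∣ (n + c).choose n := by
  haveI : Fact p.Prime := ⟨hp⟩
  have h1 := Choose.choose_modEq_choose_mod_mul_choose_div_nat (p := p) (n := n + c) (k := n)
  have hnp : n % p < p := Nat.mod_lt _ hp.pos
  have hcp : c % p < p := Nat.mod_lt _ hp.pos
  have h2 : (n + c) % p = n % p + r - p := by
    rw [Nat.add_mod, hr, Nat.mod_eq_sub_mod h, Nat.mod_eq_of_lt (by omega)]
  have h3 : ((n + c) % p).choose (n % p) = 0 := by
    rw [h2]
    exact Nat.choose_eq_zero_of_lt (by omega)
  rw [h3, zero_mul] at h1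
  exact (Nat.modEq_zero_iff_dvd).1 h1

theorem ck_dvd (hK : StmtKCZ) {k n p t j : ℕ} {s : ℤ} (hp : p.Prime) (hn : k * n + k < p ^ 2)
    (hk : 1 ≤ k) (hj : j ≤ n) (ht : (p : ℤ) ∣ (k : ℤ) * t + s) (htp : t < p) (htn : t ≤ n % p)
    (hr : (n - j) % p < t) : (p : ℤ) ∣ ck k s n j := by
  haveI : Fact p.Prime := ⟨hp⟩
  have hpi : Prime (p : ℤ) := Nat.prime_iff_prime_int.1 hp
  have hnp : n % p < p := Nat.mod_lt _ hp.pos
  have e1 := Nat.div_add_mod n p
  have e2 := Nat.div_add_mod (n - j) p
  have ha : (n - j) / p ≤ n / p := Nat.div_le_div_right (by omega)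
  set a := (n - j) / p with hadef
  set r := (n - j) % p with hrdef
  set n1 := n / p with hn1
  set n0 := n % p with hn0
  obtain ⟨c, hc⟩ := Nat.exists_eq_add_of_le ha
  -- the number `j`
  have hjc : j = c * p + (n0 - r) := by
    have h1 : p * n1 = p * a + p * c := by rw [hc]; ring
    have h2 : j = n - (n - j) := by omega
    have h3 : c * p = p * c := mul_comm _ _
    omega
  have hjdiv : j / p = c := by
    rw [hjc, Nat.add_comm, Nat.add_mul_div_right _ _ hp.pos, Nat.div_eq_of_lt (by omega), zero_add]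
  have hjlt : j < p ^ 2 := by
    have : n ≤ k * n := Nat.le_mul_of_pos_left _ hk
    omega
  -- the product is divisible by `p ^ (c + 1)`
  have hprod : (p : ℤ) ^ (c + 1) ∣ ∏ i ∈ range j, ((k : ℤ) * (n : ℤ) + s - (k : ℤ) * (i : ℤ)) := by
    have hinj : Set.InjOn (fun b : ℕ => n - ((a + b) * p + t)) (range (c + 1) : Set ℕ) := by
      intro b hb b' hb' h
      have hb1 : b < c + 1 := by simpa using hb
      have hb2 : b' < c + 1 := by simpa using hb'
      simp only at h
      have g1 : (a + b) * p + t ≤ n := by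
        have : (a + b) * p ≤ n1 * p := Nat.mul_le_mul_right _ (by omega)
        have : n1 * p = p * n1 := mul_comm _ _
        omega
      have g2 : (a + b') * p + t ≤ n := by
        have : (a + b') * p ≤ n1 * p := Nat.mul_le_mul_right _ (by omega)
        have : n1 * p = p * n1 := mul_comm _ _
        omega
      have g3 : (a + b) * p = (a + b') * p := by omega
      have g4 := Nat.eq_of_mul_eq_mul_right hp.pos g3
      omega
    have hsub : (range (c + 1)).image (fun b : ℕ => n - ((a + b) * p + t)) ⊆ range j := by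
      intro i hi
      obtain ⟨b, hb, rfl⟩ := mem_image.1 hi
      have hb1 : b < c + 1 := by simpa using hb
      rw [mem_range]
      have g1 : a * p ≤ (a + b) * p := Nat.mul_le_mul_right _ (by omega)
      have g2 : a * p = p * a := mul_comm _ _
      have g3 : (a + b) * p + t ≤ n := by
        have : (a + b) * p ≤ n1 * p := Nat.mul_le_mul_right _ (by omega)
        have : n1 * p = p * n1 := mul_comm _ _
        omega
      omega
    refine Dvd.dvd.trans ?_ (prod_dvd_prod_of_subset _ _ _ hsub)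
    rw [prod_image hinj]
    have h5 : (p : ℤ) ^ (c + 1) = ∏ _b ∈ range (c + 1), (p : ℤ) := by
      rw [prod_const, card_range]
    rw [h5]
    refine prod_dvd_prod_of_dvd _ _ fun b hb => ?_
    have hb1 : b < c + 1 := by simpa using hb
    have g3 : (a + b) * p + t ≤ n := by
      have : (a + b) * p ≤ n1 * p := Nat.mul_le_mul_right _ (by omega)
      have : n1 * p = p * n1 := mul_comm _ _
      omega
    have e3 : (k : ℤ) * (n : ℤ) + s - (k : ℤ) * ((n - ((a + b) * p + t) : ℕ) : ℤ) =
        p * (k * (a + b)) + (k * t + s) := by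
      rw [Nat.cast_sub g3]
      push_cast
      ring
    rw [e3]
    exact dvd_add (dvd_mul_right _ _) ht
  have hdvd : (p : ℤ) ^ (c + 1) ∣ ck k s n j * (j.factorial : ℤ) := by
    rw [hK.mul]
    exact hprod.mul_left _
  by_contra hcon
  have hcop : IsCoprime ((p : ℤ) ^ (c + 1)) (ck k s n j) :=
    ((Prime.coprime_iff_not_dvd hpi).2 hcon).pow_left
  have h6 : (p : ℤ) ^ (c + 1) ∣ (j.factorial : ℤ) := hcop.dvd_of_dvd_mul_left hdvd
  have h7 : p ^ (c + 1) ∣ j.factorial := by exact_mod_cast h6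
  have h8 := (padicValNat_dvd_iff_le (Nat.factorial_ne_zero j)).1 h7
  have h9 : padicValNat p j.factorial = c := by
    have h10 : Nat.log p j < 2 := Nat.log_lt_of_lt_pow' (by norm_num) hjlt
    rw [padicValNat_factorial h10]
    simp [hjdiv]
  omega

theorem goalKCP (hK : StmtKCZ) : StmtKCP := by
  intro k m n p l hO hp h2k hn hL hpl N
  have key : ∀ s : ℤ, s = m ∨ s = -(m : ℤ) → (p : ℤ) ∣ PK k s n N := by
    intro s hs
    obtain ⟨t, ht1, ht2, ht3⟩ := exists_ls hs hL
    have hl1 := hL.1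
    refine Finset.dvd_sum fun j hj => ?_
    have hj' : j ≤ n := Nat.lt_succ_iff.1 (mem_range.1 hj)
    by_cases h : p ≤ n % p + (n - j) % p
    · have h1 := choose_dvd' hp (n := n) (c := n - j) rfl h
      have h2 : n + (n - j) = 2 * n - j := by omega
      rw [h2] at h1
      have h3 : (p : ℤ) ∣ ((2 * n - j).choose n : ℤ) := by exact_mod_cast h1
      exact (h3.mul_left _).mul_right _
    · have h1 := ck_dvd hK hp hn (by have := hO.1; omega) hj' ht3 (by omega) (by omega) (by omega)
      exact (h1.mul_right _).mul_right _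
  exact ⟨key _ (Or.inl rfl), key _ (Or.inr rfl)⟩

end Pool.Agent.Helper32.SM
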