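import Pool.Agent.Helper73.SM.Goals

/-!
# Project SM (MP_c307ca_nt), packet LAT
-/

set_option autoImplicit false

namespace Pool.Agent.Helper32.SM

open Finset hiding box
open Pool.Agent.Helper73.SM

/-- the product of a matrix and the matrix with rows `h₁`, `h₂` -/
def pm (h₁ h₂ : ℤ × ℤ) (w : Mat) : Mat :=
  ((w.1.1 * h₁.1 + w.1.2 * h₂.1, w.1.1 * h₁.2 + w.1.2 * h₂.2),
    (w.2.1 * h₁.1 + w.2.2 * h₂.1, w.2.1 * h₁.2 + w.2.2 * h₂.2))

/-- the second row -/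
def hr (z z' : ℤ × ℤ) (m r : ℤ) : ℤ × ℤ := (r * z.1 + m * z'.1, r * z.2 + m * z'.2)

theorem exists_w (z z' : ℤ × ℤ) (hz : z.1 * z'.2 - z.2 * z'.1 = 1) (k n : ℕ) (hk : 1 ≤ k)
    (hn : 1 ≤ n) (g : Mat) (hg : |dt g.1 g.2| = (n : ℤ)) (u : ℤ × ℤ) (hu : IsCoprime u.1 u.2)
    (hug : cmb u g = ((k : ℤ) * z.1, (k : ℤ) * z.2)) :
    k ∣ n ∧ ∃ r ∈ range k, ∃ w : Mat, |dt w.1 w.2| = 1 ∧
      g = pm ((k : ℤ) * z.1, (k : ℤ) * z.2) (hr z z' ((n / k : ℕ) : ℤ) (r : ℤ)) w := by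
  obtain ⟨a₀, b₀, hab⟩ := hu
  -- s = (-b₀, a₀)
  set v : ℤ × ℤ := cmb (-b₀, a₀) g with hv
  have hug1 : u.1 * g.1.1 + u.2 * g.2.1 = (k : ℤ) * z.1 := congrArg Prod.fst hug
  have hug2 : u.1 * g.1.2 + u.2 * g.2.2 = (k : ℤ) * z.2 := congrArg Prod.snd hug
  have hv1 : v.1 = -b₀ * g.1.1 + a₀ * g.2.1 := rfl
  have hv2 : v.2 = -b₀ * g.1.2 + a₀ * g.2.2 := rfl
  have hdt : dt g.1 g.2 = g.1.1 * g.2.2 - g.1.2 * g.2.1 := rfl
  -- coordinates of v
  set a : ℤ := v.1 * z'.2 - v.2 * z'.1 with ha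
  set b : ℤ := z.1 * v.2 - z.2 * v.1 with hb
  have ev1 : v.1 = a * z.1 + b * z'.1 := by
    rw [ha, hb]; linear_combination (-v.1) * hz
  have ev2 : v.2 = a * z.2 + b * z'.2 := by
    rw [ha, hb]; linear_combination (-v.2) * hz
  have hkb : (k : ℤ) * b = dt g.1 g.2 := by
    have e1 : (k : ℤ) * b = ((k : ℤ) * z.1) * v.2 - ((k : ℤ) * z.2) * v.1 := by rw [hb]; ring
    rw [e1, ← hug1, ← hug2, hv1, hv2, hdt]
    linear_combination (g.1.1 * g.2.2 - g.1.2 * g.2.1) * hab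
  have hkn : (k : ℤ) * |b| = n := by
    rw [← hg, ← hkb, abs_mul, abs_of_nonneg (Int.natCast_nonneg k)]
  have hdvd : k ∣ n := by
    have : (k : ℤ) ∣ (n : ℤ) := ⟨|b|, hkn.symm⟩
    exact_mod_cast this
  refine ⟨hdvd, ?_⟩
  have hbm : |b| = ((n / k : ℕ) : ℤ) := by
    have hk0 : (k : ℤ) ≠ 0 := by exact_mod_cast (by omega : k ≠ 0)
    have h1 : (k : ℤ) * ((n / k : ℕ) : ℤ) = n := by exact_mod_cast Nat.mul_div_cancel' hdvd
    exact mul_left_cancel₀ hk0 (hkn.trans h1.symm)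
  obtain ⟨ε, hε, hεb⟩ : ∃ ε : ℤ, (ε = 1 ∨ ε = -1) ∧ ε * b = ((n / k : ℕ) : ℤ) := by
    rcases abs_choice b with h | h
    · exact ⟨1, Or.inl rfl, by rw [one_mul, ← hbm, h]⟩
    · exact ⟨-1, Or.inr rfl, by rw [← hbm, h]; ring⟩
  have hεε : ε * ε = 1 := by rcases hε with h | h <;> rw [h] <;> norm_num
  have hkpos : (0 : ℤ) < k := by exact_mod_cast (by omega : 0 < k)
  have hr0 := Int.emod_nonneg (ε * a) hkpos.ne'
  have hr1 := Int.emod_lt_of_pos (ε * a) hkpos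
  have hdiv := Int.emod_add_mul_ediv (ε * a) (k : ℤ)
  set r := (ε * a) % (k : ℤ) with hrdef
  set t := (ε * a) / (k : ℤ) with htdef
  refine ⟨r.toNat, ?_, ((a₀ - u.2 * ε * t, -(u.2 * ε)), (u.1 * ε * t + b₀, u.1 * ε)), ?_, ?_⟩
  · rw [Finset.mem_range]
    omega
  · have e1 : dt (a₀ - u.2 * ε * t, -(u.2 * ε)) (u.1 * ε * t + b₀, u.1 * ε) = ε := by
      unfold dt
      dsimp only
      linear_combination ε * hab
    change |dt (a₀ - u.2 * ε * t, -(u.2 * ε)) (u.1 * ε * t + b₀, u.1 * ε)| = 1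
    rw [e1]
    rcases hε with h | h <;> rw [h] <;> norm_num
  · rw [Int.toNat_of_nonneg hr0, ← hεb]
    -- ε v = t h₁ + h₂
    have f1 : ε * v.1 = t * ((k : ℤ) * z.1) + (r * z.1 + (ε * b) * z'.1) := by
      rw [ev1]; linear_combination (-z.1) * hdiv
    have f2 : ε * v.2 = t * ((k : ℤ) * z.2) + (r * z.2 + (ε * b) * z'.2) := by
      rw [ev2]; linear_combination (-z.2) * hdiv
    unfold pm hr
    dsimp only
    refine Prod.ext (Prod.ext ?_ ?_) (Prod.ext ?_ ?_)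
    · dsimp only
      have e1 : (a₀ - u.2 * ε * t) * ((k : ℤ) * z.1) + -(u.2 * ε) * (r * z.1 + ε * b * z'.1) =
          a₀ * ((k : ℤ) * z.1) - u.2 * (ε * (ε * v.1)) := by
        rw [f1]; ring
      rw [e1, ← hug1, ← mul_assoc ε ε, hεε, hv1]
      linear_combination (-g.1.1) * hab
    · dsimp only
      have e1 : (a₀ - u.2 * ε * t) * ((k : ℤ) * z.2) + -(u.2 * ε) * (r * z.2 + ε * b * z'.2) =
          a₀ * ((k : ℤ) * z.2) - u.2 * (ε * (ε * v.2)) := by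
        rw [f2]; ring
      rw [e1, ← hug2, ← mul_assoc ε ε, hεε, hv2]
      linear_combination (-g.1.2) * hab
    · dsimp only
      have e1 : (u.1 * ε * t + b₀) * ((k : ℤ) * z.1) + u.1 * ε * (r * z.1 + ε * b * z'.1) =
          b₀ * ((k : ℤ) * z.1) + u.1 * (ε * (ε * v.1)) := by
        rw [f1]; ring
      rw [e1, ← hug1, ← mul_assoc ε ε, hεε, hv1]
      linear_combination (-g.2.1) * hab
    · dsimp only
      have e1 : (u.1 * ε * t + b₀) * ((k : ℤ) * z.2) + u.1 * ε * (r * z.2 + ε * b * z'.2) =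
          b₀ * ((k : ℤ) * z.2) + u.1 * (ε * (ε * v.2)) := by
        rw [f2]; ring
      rw [e1, ← hug2, ← mul_assoc ε ε, hεε, hv2]
      linear_combination (-g.2.2) * hab

theorem cb_pm1 (ξ M H : ℝ) (h₁ h₂ : ℤ × ℤ) (w : Mat) :
    cb w.1.1 w.1.2 ((h₁.1 : ℝ) / H, lf ξ h₁ / M) ((h₂.1 : ℝ) / H, lf ξ h₂ / M) =
      (((pm h₁ h₂ w).1.1 : ℝ) / H, lf ξ (pm h₁ h₂ w).1 / M) := by
  unfold cb pm lf
  dsimp only
  push_cast
  refine Prod.ext ?_ ?_
  · dsimp only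
    ring
  · dsimp only
    ring

theorem cb_pm2 (ξ M H : ℝ) (h₁ h₂ : ℤ × ℤ) (w : Mat) :
    cb w.2.1 w.2.2 ((h₁.1 : ℝ) / H, lf ξ h₁ / M) ((h₂.1 : ℝ) / H, lf ξ h₂ / M) =
      (((pm h₁ h₂ w).2.1 : ℝ) / H, lf ξ (pm h₁ h₂ w).2 / M) := by
  unfold cb pm lf
  dsimp only
  push_cast
  refine Prod.ext ?_ ?_
  · dsimp only
    ring
  · dsimp only
    ring

theorem goalLAT (hBAS : StmtBAS) : StmtLAT := by
  intro ξ M H hH hM z hz k n hk hn
  obtain ⟨a, b, hab⟩ := hz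
  have hz' : z.1 * (a : ℤ) - z.2 * (-b : ℤ) = 1 := by linear_combination hab
  set z' : ℤ × ℤ := (-b, a) with hz'def
  have hH0 : (0 : ℝ) < H := by exact_mod_cast (by omega : 0 < H)
  classical
  by_cases hkn : k ∣ n
  · rw [if_pos hkn]
    set m : ℤ := ((n / k : ℕ) : ℤ) with hm
    have hkm : (k : ℤ) * m = n := by rw [hm]; exact_mod_cast Nat.mul_div_cancel' hkn
    set h₁ : ℤ × ℤ := ((k : ℤ) * z.1, (k : ℤ) * z.2) with hh1
    set U : ℝ × ℝ := ((h₁.1 : ℝ) / H, lf ξ h₁ / M) with hU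
    set W : ℕ → ℝ × ℝ := fun r => (((hr z z' m (r : ℤ)).1 : ℝ) / H, lf ξ (hr z z' m (r : ℤ)) / M)
      with hW
    have hdr : ∀ r : ℕ, dr U (W r) = (n : ℝ) / (H * M) := by
      intro r
      have e1 : dr U (W r) = ((h₁.1 : ℝ) * ((hr z z' m (r : ℤ)).2 : ℝ) -
          (h₁.2 : ℝ) * ((hr z z' m (r : ℤ)).1 : ℝ)) / (H * M) := by
        rw [hU, hW]
        unfold dr lf
        dsimp only
        field_simp
        ring
      rw [e1]
      congr 1
      have e2 : h₁.1 * (hr z z' m (r : ℤ)).2 - h₁.2 * (hr z z' m (r : ℤ)).1 = (n : ℤ) := by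
        rw [← hkm, hh1]
        unfold hr
        dsimp only
        linear_combination (k : ℤ) * m * hz'
      exact_mod_cast e2
    have hn0 : (0 : ℝ) < n := by exact_mod_cast (by omega : 0 < n)
    have hdpos : ∀ r : ℕ, dr U (W r) ≠ 0 := by
      intro r
      rw [hdr r]
      positivity
    have hB := fun r : ℕ => hBAS U (W r) (hdpos r)
    set S := (box H).filter (fun g => |lf ξ g.1| ≤ M ∧ |lf ξ g.2| ≤ M ∧ |dt g.1 g.2| = (n : ℤ) ∧
      ∃ u : ℤ × ℤ, IsCoprime u.1 u.2 ∧ cmb u g = ((k : ℤ) * z.1, (k : ℤ) * z.2)) with hS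
    have hsub : S ⊆ (range k).biUnion (fun r => (hB r).1.toFinset.image
        (pm h₁ (hr z z' m (r : ℤ)))) := by
      intro g hg
      rw [hS, Finset.mem_filter] at hg
      obtain ⟨hbox, hg1, hg2, hgn, u, hu, hug⟩ := hg
      obtain ⟨_, r, hr', w, hw, hgw⟩ := exists_w z z' hz' k n hk hn g hgn u hu hug
      rw [Finset.mem_biUnion]
      refine ⟨r, hr', ?_⟩
      rw [Finset.mem_image]
      refine ⟨w, ?_, hgw.symm⟩
      rw [Set.Finite.mem_toFinset]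
      have hgb : |g.1.1| ≤ (H : ℤ) ∧ |g.2.1| ≤ (H : ℤ) := by
        unfold box at hbox
        simp only [Finset.mem_product, Finset.mem_Icc] at hbox
        exact ⟨abs_le.2 hbox.1.1, abs_le.2 hbox.2.1⟩
      have hgw' : g = pm h₁ (hr z z' m (r : ℤ)) w := hgw
      have c1 : cb w.1.1 w.1.2 U (W r) = ((g.1.1 : ℝ) / H, lf ξ g.1 / M) := by
        rw [hgw']
        exact cb_pm1 ξ M H h₁ (hr z z' m (r : ℤ)) w
      have c2 : cb w.2.1 w.2.2 U (W r) = ((g.2.1 : ℝ) / H, lf ξ g.2 / M) := by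
        rw [hgw']
        exact cb_pm2 ξ M H h₁ (hr z z' m (r : ℤ)) w
      refine ⟨hw, ?_, ?_⟩
      · rw [c1]
        unfold nm
        dsimp only
        rw [max_le_iff, abs_div, abs_div, abs_of_pos hH0, abs_of_pos hM, div_le_one hH0,
          div_le_one hM]
        exact ⟨by exact_mod_cast hgb.1, hg1⟩
      · rw [c2]
        unfold nm
        dsimp only
        rw [max_le_iff, abs_div, abs_div, abs_of_pos hH0, abs_of_pos hM, div_le_one hH0,
          div_le_one hM]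
        exact ⟨by exact_mod_cast hgb.2, hg2⟩
    have hcard : ∀ r ∈ range k, (((hB r).1.toFinset.image (pm h₁ (hr z z' m (r : ℤ)))).card : ℝ) ≤
        384 * H * M / n := by
      intro r _
      have e1 : (((hB r).1.toFinset.image (pm h₁ (hr z z' m (r : ℤ)))).card : ℝ) ≤
          ((hB r).1.toFinset.card : ℝ) := by exact_mod_cast Finset.card_image_le
      have e2 := (hB r).2
      have e3 : |dr U (W r)| = (n : ℝ) / (H * M) := by
        rw [hdr r, abs_of_pos (by positivity)]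
      rw [e3] at e2
      rw [Set.ncard_eq_toFinset_card _ (hB r).1] at e2
      refine e1.trans (e2.trans (le_of_eq ?_))
      field_simp
    have hfin : ((S.card : ℕ) : ℝ) ≤ ∑ r ∈ range k, (384 * H * M / n : ℝ) := by
      have e1 : S.card ≤ ∑ r ∈ range k, ((hB r).1.toFinset.image
          (pm h₁ (hr z z' m (r : ℤ)))).card := (Finset.card_le_card hsub).trans
            Finset.card_biUnion_le
      have e2 : (S.card : ℝ) ≤ ((∑ r ∈ range k, ((hB r).1.toFinset.image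
          (pm h₁ (hr z z' m (r : ℤ)))).card : ℕ) : ℝ) := by exact_mod_cast e1
      rw [Nat.cast_sum] at e2
      exact e2.trans (Finset.sum_le_sum hcard)
    rw [Finset.sum_const, Finset.card_range, nsmul_eq_mul] at hfin
    exact hfin
  · rw [if_neg hkn]
    refine le_of_eq ?_
    rw [Nat.cast_eq_zero, Finset.card_eq_zero, Finset.eq_empty_iff_forall_notMem]
    intro g hg
    obtain ⟨_, _, _, hgn, u, hu, hug⟩ := Finset.mem_filter.1 hg
    exact hkn (exists_w z z' hz' k n hk hn g hgn u hu hug).1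

end Pool.Agent.Helper32.SM
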