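import Pool.Agent.Helper73.SM.GoalsU

/-!
# Project CU (MP_c307ca_nt), packet URT
-/

set_option autoImplicit false

namespace Pool.Agent.Helper32.SM

open Finset
open Pool.Agent.Helper73.SM
open Polynomial

section

variable {n p : ℕ} {s : ℤ}

theorem dvd_cz_iff (hU : StmtUCZ) (hs : s = 1 ∨ s = -1) (hp : p.Prime) (h3 : p ≠ 3)
    (h2 : 3 * n + 2 ≤ 2 * p) {j : ℕ} (hj : j ≤ n) :
    (p : ℤ) ∣ cz s n j ↔ ∃ i < j, 3 * (n : ℤ) + s - 3 * (i : ℤ) = p := by
  have hpi : Prime (p : ℤ) := Nat.prime_iff_prime_int.1 hp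
  have hfac : ¬ (p : ℤ) ∣ (j.factorial : ℤ) := by
    intro h
    have h1 : p ∣ j.factorial := by exact_mod_cast h
    have := (hp.dvd_factorial).1 h1
    omega
  have h3' : ¬ (p : ℤ) ∣ 3 ^ j := by
    intro h
    have h1 : p ∣ 3 ^ j := by exact_mod_cast h
    have h4 := hp.dvd_of_dvd_pow h1
    exact h3 ((Nat.prime_dvd_prime_iff_eq hp Nat.prime_three).1 h4)
  have hmul := hU.mul s n j
  have hval : ∀ i < j, ((p : ℤ) ∣ 3 * (n : ℤ) + s - 3 * (i : ℤ) ↔
      3 * (n : ℤ) + s - 3 * (i : ℤ) = p) := by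
    intro i hi
    constructor
    · rintro ⟨c, hc⟩
      have hb1 : 0 < 3 * (n : ℤ) + s - 3 * (i : ℤ) := by
        rcases hs with h | h <;> omega
      have hb2 : 3 * (n : ℤ) + s - 3 * (i : ℤ) < 2 * p := by
        rcases hs with h | h <;> omega
      rw [hc] at hb1 hb2
      have hp0 : (0 : ℤ) < p := by exact_mod_cast hp.pos
      have hc1 : 0 < c := by
        by_contra hcon
        have : (p : ℤ) * c ≤ 0 := mul_nonpos_of_nonneg_of_nonpos hp0.le (not_lt.1 hcon)
        omega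
      have hc2 : c < 2 := by
        by_contra hcon
        have h5 : (2 : ℤ) ≤ c := not_lt.1 hcon
        have h6 : (p : ℤ) * 2 ≤ p * c := mul_le_mul_of_nonneg_left h5 hp0.le
        omega
      have hc3 : c = 1 := by omega
      rw [hc, hc3, mul_one]
    · intro h
      rw [h]
  constructor
  · intro h
    have h1 : (p : ℤ) ∣ 3 ^ j * ∏ i ∈ range j, (3 * (n : ℤ) + s - 3 * (i : ℤ)) := by
      rw [← hmul]
      exact h.mul_right _
    rcases hpi.dvd_or_dvd h1 with h4 | h4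
    · exact absurd h4 h3'
    · obtain ⟨i, hi, h5⟩ := (Prime.dvd_finset_prod_iff hpi _).1 h4
      have hi' := Finset.mem_range.1 hi
      exact ⟨i, hi', (hval i hi').1 h5⟩
  · rintro ⟨i, hi, h⟩
    have h1 : (p : ℤ) ∣ cz s n j * (j.factorial : ℤ) := by
      rw [hmul]
      refine Dvd.dvd.mul_left ?_ _
      refine (Prime.dvd_finset_prod_iff hpi _).2 ⟨i, Finset.mem_range.2 hi, ?_⟩
      exact (hval i hi).2 h
    exact (hpi.dvd_or_dvd h1).resolve_right hfac

theorem choose_dvd (hp : p.Prime) (hnp : n < p) {j : ℕ} (hj : j ≤ n) (h : p ≤ 2 * n - j) :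
    p ∣ (2 * n - j).choose n := by
  refine hp.dvd_choose hnp ?_ h
  omega

theorem choose_not_dvd (hp : p.Prime) {j : ℕ} (hj : j ≤ n) (h : 2 * n - j < p) :
    ¬ p ∣ (2 * n - j).choose n := by
  intro h1
  have h2 : (2 * n - j).choose n ∣ (2 * n - j).factorial := by
    have h3 := Nat.choose_mul_factorial_mul_factorial (n := 2 * n - j) (k := n) (by omega)
    exact ⟨n.factorial * (2 * n - j - n).factorial, by rw [← h3]; ring⟩
  have h3 := (hp.dvd_factorial).1 (h1.trans h2)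
  omega

theorem PZ_zero (s : ℤ) (n : ℕ) : PZ s n 0 = cz s n n := by
  unfold PZ
  rw [Finset.sum_eq_single n]
  · have : 2 * n - n = n := by omega
    rw [this, Nat.choose_self, Nat.sub_self, pow_zero]
    simp
  · intro j hj hne
    have hj' : j ≤ n := Nat.lt_succ_iff.1 (Finset.mem_range.1 hj)
    have : n - j ≠ 0 := by omega
    rw [mul_zero, zero_pow this, mul_zero]
  · intro h
    exact absurd (Finset.mem_range.2 (Nat.lt_succ_self n)) h

/-- the number of nonzero roots of one of the two polynomials -/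
theorem roots_le (hU : StmtUCZ) (hs : s = 1 ∨ s = -1) (hp : p.Prime) (h3 : p ≠ 3)
    (h2 : 3 * n + 2 ≤ 2 * p) {a j₀ : ℕ} (ha : a ≤ n) (ha' : 3 * (n : ℤ) + s - 3 * (a : ℤ) = p)
    (hj₀ : j₀ = 2 * n + 1 - p) (hle : j₀ ≤ a) :
    ((range p).filter (fun N : ℕ => N ≠ 0 ∧ (p : ℤ) ∣ PZ s n N)).card ≤ a - j₀ := by
  classical
  haveI : Fact p.Prime := ⟨hp⟩
  have hnp : n < p := by omega
  have han : a < n := by
    have hp2 := hp.two_le
    rcases hs with h | h <;> subst h <;> omega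
  -- coefficients
  set c : ℕ → ZMod p := fun j => ((cz s n j * ((2 * n - j).choose n : ℤ) : ℤ) : ZMod p) with hc
  have hczd : ∀ j ≤ n, ((p : ℤ) ∣ cz s n j ↔ a < j) := by
    intro j hj
    rw [dvd_cz_iff hU hs hp h3 h2 hj]
    constructor
    · rintro ⟨i, hi, h⟩
      omega
    · intro h
      exact ⟨a, h, ha'⟩
  have hc0 : ∀ j ≤ n, ¬ (j₀ ≤ j ∧ j ≤ a) → c j = 0 := by
    intro j hj h
    rw [hc]
    change (((cz s n j * ((2 * n - j).choose n : ℤ) : ℤ)) : ZMod p) = 0
    rw [ZMod.intCast_zmod_eq_zero_iff_dvd]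
    by_cases h4 : a < j
    · exact ((hczd j hj).2 h4).mul_right _
    · refine Dvd.dvd.mul_left ?_ _
      have h5 : p ≤ 2 * n - j := by omega
      exact_mod_cast choose_dvd hp hnp hj h5
  have hc1 : c j₀ ≠ 0 := by
    rw [hc]
    change (((cz s n j₀ * ((2 * n - j₀).choose n : ℤ) : ℤ)) : ZMod p) ≠ 0
    rw [Ne, ZMod.intCast_zmod_eq_zero_iff_dvd]
    intro h
    have hpi : Prime (p : ℤ) := Nat.prime_iff_prime_int.1 hp
    rcases hpi.dvd_or_dvd h with h4 | h4
    · have := (hczd j₀ (by omega)).1 h4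
      omega
    · exact choose_not_dvd hp (n := n) (j := j₀) (by omega) (by omega) (by exact_mod_cast h4)
  set F : (ZMod p)[X] := ∑ j ∈ Icc j₀ a, C (c j) * X ^ (a - j) with hF
  have hdeg : F.natDegree ≤ a - j₀ := by
    rw [hF]
    refine Polynomial.natDegree_sum_le_of_forall_le _ _ ?_
    intro j hj
    refine (Polynomial.natDegree_C_mul_X_pow_le _ _).trans ?_
    have := (Finset.mem_Icc.1 hj).1
    omega
  have hF0 : F ≠ 0 := by
    intro h
    have h4 : F.coeff (a - j₀) = c j₀ := by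
      rw [hF, Polynomial.finset_sum_coeff, Finset.sum_eq_single j₀]
      · rw [Polynomial.coeff_C_mul_X_pow, if_pos rfl]
      · intro j hj hne
        rw [Polynomial.coeff_C_mul_X_pow, if_neg]
        have := Finset.mem_Icc.1 hj
        omega
      · intro h
        exact absurd (Finset.mem_Icc.2 ⟨le_refl _, hle⟩) h
    rw [h, Polynomial.coeff_zero] at h4
    exact hc1 h4.symm
  have h9 : ((9 : ℕ) : ZMod p) ≠ 0 := by
    rw [Ne, ZMod.natCast_eq_zero_iff]
    intro h
    have h4 : p ∣ 3 ^ 2 := by norm_num; exact h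
    exact h3 ((Nat.prime_dvd_prime_iff_eq hp Nat.prime_three).1 (hp.dvd_of_dvd_pow h4))
  have hroot : ∀ N : ℕ, N ∈ (range p).filter (fun N : ℕ => N ≠ 0 ∧ (p : ℤ) ∣ PZ s n N) →
      ((9 : ℕ) : ZMod p) * (N : ZMod p) ∈ F.roots.toFinset := by
    intro N hN
    obtain ⟨hNp, hN0, hd⟩ := Finset.mem_filter.1 hN
    have hNp' := Finset.mem_range.1 hNp
    set y : ZMod p := ((9 : ℕ) : ZMod p) * (N : ZMod p) with hy
    have hy0 : y ≠ 0 := by
      rw [hy]
      refine mul_ne_zero h9 ?_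
      rw [Ne, ZMod.natCast_eq_zero_iff]
      intro h
      exact absurd (Nat.le_of_dvd (by omega) h) (by omega)
    rw [Multiset.mem_toFinset, Polynomial.mem_roots hF0, Polynomial.IsRoot.def]
    have e1 : ((PZ s n (N : ℤ) : ℤ) : ZMod p) = 0 :=
      (ZMod.intCast_zmod_eq_zero_iff_dvd _ _).2 hd
    have e2 : ((PZ s n (N : ℤ) : ℤ) : ZMod p) = ∑ j ∈ range (n + 1), c j * y ^ (n - j) := by
      unfold PZ
      rw [hc, hy]
      push_cast
      rfl
    have e3 : ∑ j ∈ range (n + 1), c j * y ^ (n - j) = ∑ j ∈ Icc j₀ a, c j * y ^ (n - j) := by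
      symm
      refine Finset.sum_subset ?_ ?_
      · intro j hj
        have := Finset.mem_Icc.1 hj
        exact Finset.mem_range.2 (by omega)
      · intro j hj hne
        have h4 := Finset.mem_range.1 hj
        rw [hc0 j (by omega) (fun h => hne (Finset.mem_Icc.2 h)), zero_mul]
    have e4 : ∑ j ∈ Icc j₀ a, c j * y ^ (n - j) = y ^ (n - a) * F.eval y := by
      rw [hF, Polynomial.eval_finset_sum, Finset.mul_sum]
      refine Finset.sum_congr rfl fun j hj => ?_
      have h4 := Finset.mem_Icc.1 hj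
      rw [Polynomial.eval_mul, Polynomial.eval_C, Polynomial.eval_pow, Polynomial.eval_X]
      have h5 : n - j = (n - a) + (a - j) := by omega
      rw [h5, pow_add]
      ring
    rw [e2, e3, e4] at e1
    exact (mul_eq_zero.1 e1).resolve_left (pow_ne_zero _ hy0)
  calc ((range p).filter (fun N : ℕ => N ≠ 0 ∧ (p : ℤ) ∣ PZ s n N)).card
      ≤ F.roots.toFinset.card := by
        refine Finset.card_le_card_of_injOn (fun N : ℕ => ((9 : ℕ) : ZMod p) * (N : ZMod p))
          hroot ?_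
        intro N hN M hM h
        have h4 := mul_left_cancel₀ h9 h
        rw [ZMod.natCast_eq_natCast_iff'] at h4
        have hN' := Finset.mem_range.1 (Finset.mem_filter.1 hN).1
        have hM' := Finset.mem_range.1 (Finset.mem_filter.1 hM).1
        rwa [Nat.mod_eq_of_lt hN', Nat.mod_eq_of_lt hM'] at h4
    _ ≤ Multiset.card F.roots := Multiset.toFinset_card_le _
    _ ≤ F.natDegree := Polynomial.card_roots' F
    _ ≤ a - j₀ := hdeg

end

theorem goalURT (hU : StmtUCZ) : StmtURT := by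
  intro n p hn hpP
  unfold PP at hpP
  obtain ⟨hI, hp⟩ := Finset.mem_filter.1 hpP
  obtain ⟨hI1, hI2⟩ := Finset.mem_Ioc.1 hI
  have h2 : 3 * n + 2 ≤ 2 * p := by omega
  have h3 : p ≠ 3 := by
    rintro rfl
    omega
  have hmod : p % 3 = 1 ∨ p % 3 = 2 := by
    have h4 : ¬ 3 ∣ p := fun h => h3 ((Nat.prime_dvd_prime_iff_eq Nat.prime_three hp).1 h).symm
    omega
  rcases hmod with hm | hm
  · -- p = 3 l + 1
    obtain ⟨l, hl⟩ : ∃ l, p = 3 * l + 1 := ⟨p / 3, by omega⟩
    have hsub : (range p).filter (fun a : ℕ => (p : ℤ) ∣ PZ 1 n a ∧ (p : ℤ) ∣ PZ (-1) n a) ⊆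
        (range p).filter (fun N : ℕ => N ≠ 0 ∧ (p : ℤ) ∣ PZ 1 n N) := by
      intro N hN
      obtain ⟨h4, h5, h6⟩ := Finset.mem_filter.1 hN
      refine Finset.mem_filter.2 ⟨h4, ?_, h5⟩
      rintro rfl
      rw [Nat.cast_zero, PZ_zero, dvd_cz_iff hU (Or.inr rfl) hp h3 h2 (le_refl n)] at h6
      obtain ⟨i, hi, h7⟩ := h6
      omega
    have hr := roots_le (s := 1) (a := n - l) (j₀ := 2 * n + 1 - p) hU (Or.inl rfl) hp h3 h2
      (by omega) (by push_cast [Nat.cast_sub (show l ≤ n by omega)]; omega) rfl (by omega)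
    have hc := Finset.card_le_card hsub
    omega
  · -- p = 3 l - 1
    obtain ⟨l, hl⟩ : ∃ l, p + 1 = 3 * l := ⟨(p + 1) / 3, by omega⟩
    have hsub : (range p).filter (fun a : ℕ => (p : ℤ) ∣ PZ 1 n a ∧ (p : ℤ) ∣ PZ (-1) n a) ⊆
        (range p).filter (fun N : ℕ => N ≠ 0 ∧ (p : ℤ) ∣ PZ (-1) n N) := by
      intro N hN
      obtain ⟨h4, h5, h6⟩ := Finset.mem_filter.1 hN
      refine Finset.mem_filter.2 ⟨h4, ?_, h6⟩
      rintro rfl
      rw [Nat.cast_zero, PZ_zero, dvd_cz_iff hU (Or.inl rfl) hp h3 h2 (le_refl n)] at h5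
      obtain ⟨i, hi, h7⟩ := h5
      omega
    have hr := roots_le (s := -1) (a := n - l) (j₀ := 2 * n + 1 - p) hU (Or.inr rfl) hp h3 h2
      (by omega) (by push_cast [Nat.cast_sub (show l ≤ n by omega)]; omega) rfl (by omega)
    have hc := Finset.card_le_card hsub
    omega

end Pool.Agent.Helper32.SM
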